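import Pool.Agent.X276.Spr.C2

/-! Boomerang subgroups of the group of piecewise linear dyadic homeomorphisms of the unit
interval, realised on the line: existence of elements and the basic trick. -/

namespace Boom

open Filter Topology Set Spr

/-- Elements of `P` supported in the unit interval. -/
def FR : Subgroup G where
  carrier := {f | f ∈ P ∧ Supp f 0 1}
  mul_mem' := fun ha hb => ⟨P.mul_mem ha.1 hb.1, ha.2.mul hb.2⟩
  one_mem' := ⟨P.one_mem, Supp.one⟩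
  inv_mem' := fun ha => ⟨P.inv_mem ha.1, ha.2.inv⟩

theorem move {p a b q : ℝ} (hp : Dy p) (ha : Dy a) (hb : Dy b) (hq : Dy q) (h1 : p < a)
    (h2 : p < b) (h3 : a < q) (h4 : b < q) : ∃ f ∈ P, Supp f p q ∧ f a = b := by
  obtain ⟨f1, f1P, f10, f11⟩ := interp hp ha hp hb h1 h2
  obtain ⟨f2, f2P, f20, f21⟩ := interp ha hq hb hq h3 h4
  obtain ⟨f, e1, e2, e3, e4, e5, e6⟩ := four_exists f1 f2 1 p a q q h1.le h3.le le_rfl f10.symm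
    (by rw [f11, f20]) (by rw [f21, one_ap]) (by rw [one_ap])
  exact ⟨f, e6 f1P f2P P.one_mem hp ha hq hq, ⟨e1, e5⟩, by rw [e2 a h1.le le_rfl, f11]⟩

theorem move2 {p a b c d q : ℝ} (hp : Dy p) (ha : Dy a) (hb : Dy b) (hc : Dy c) (hd : Dy d)
    (hq : Dy q) (h1 : p < a) (h2 : a < b) (h3 : b < q) (h4 : p < c) (h5 : c < d) (h6 : d < q) :
    ∃ f ∈ P, Supp f p q ∧ f a = c ∧ f b = d := by
  obtain ⟨f1, f1P, f10, f11⟩ := interp hp ha hp hc h1 h4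
  obtain ⟨f2, f2P, f20, f21⟩ := interp ha hb hc hd h2 h5
  obtain ⟨f3, f3P, f30, f31⟩ := interp hb hq hd hq h3 h6
  obtain ⟨f, e1, e2, e3, e4, e5, e6⟩ := four_exists f1 f2 f3 p a b q h1.le h2.le h3.le f10.symm
    (by rw [f11, f20]) (by rw [f21, f30]) f31
  exact ⟨f, e6 f1P f2P f3P hp ha hb hq, ⟨e1, e5⟩, by rw [e2 a h1.le le_rfl, f11],
    by rw [e3 b h2.le le_rfl, f21]⟩

/-- One direction of recurrence: finite subsets of `D` return to `D`. -/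
def RetA (D : Subgroup G) : Prop :=
  ∀ γ ∈ FR, ∀ A : Finset G, (∀ a ∈ A, a ∈ D) → ∃ n : ℕ, 1 ≤ n ∧ ∀ a ∈ A, (γ ^ n)⁻¹ * a * γ ^ n ∈ D

theorem pow_ap (f : G) (n : ℕ) (t : ℝ) : (f ^ (n + 1)) t = f ((f ^ n) t) := by
  rw [pow_succ', mul_ap]

/-- Step 1: on a small interval, every element of `FR` supported there agrees with an element
of `D`. -/
theorem step1 {D : Subgroup G} (hD : RetA D) (hDF : D ≤ FR) {δ : G} (hδ : δ ∈ D) {k0 k1 i0 i1 : ℝ}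
    (hk0 : 0 ≤ k0) (hk1 : k1 ≤ 1) (hki : k0 ≤ i0) (hi : i0 ≤ i1) (hik : i1 ≤ k1)
    (hmv : k1 ≤ δ k0) {α : G} (hα : α ∈ P) (hαs : Supp α k0 k1) (hαm : i1 ≤ α i0)
    {η : G} (hη : η ∈ P) (hηs : Supp η i0 i1) :
    ∃ w ∈ D, ∀ t, i0 ≤ t → t ≤ i1 → w t = η t := by
  have hδF := hDF hδ
  have hαF : α ∈ FR := ⟨hα, hαs.mono hk0 hk1⟩
  have hηF : η ∈ FR := ⟨hη, hηs.mono (hk0.trans hki) (hik.trans hk1)⟩
  set a : G := δ * α * δ⁻¹ with ha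
  have haF : a ∈ FR := FR.mul_mem (FR.mul_mem hδF hαF) (FR.inv_mem hδF)
  have has : Supp a (δ k0) (δ k1) := hαs.conj δ
  set ξ : G := a * (α * η) with hξ
  have hξF : ξ ∈ FR := FR.mul_mem haF (FR.mul_mem hαF hηF)
  have hξap : ∀ x, ξ x = a (α (η x)) := fun x => rfl
  have haap : ∀ x, a x = δ (α (δ⁻¹ x)) := fun x => rfl
  obtain ⟨n, hn, hA⟩ := hD ξ hξF {δ} (by simpa using hδ)
  have hA := hA δ (by simp)
  refine ⟨δ⁻¹ * ((ξ ^ n)⁻¹ * δ * ξ ^ n), D.mul_mem (D.inv_mem hδ) hA, fun t ht0 ht1 => ?_⟩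
  -- the interval `K`
  have hηt := hηs.maps ht0 ht1
  have hk01 : k0 ≤ k1 := hki.trans (hi.trans hik)
  -- iterates of `α`
  have hαn : ∀ m : ℕ, k0 ≤ (α ^ m) (η t) ∧ (α ^ m) (η t) ≤ k1 := by
    intro m
    induction m with
    | zero =>
      rw [pow_zero, one_ap]
      exact ⟨hki.trans hηt.1, hηt.2.trans hik⟩
    | succ m ih =>
      rw [pow_ap]
      exact hαs.maps ih.1 ih.2
  have hα1 : ∀ m : ℕ, i1 ≤ (α ^ (m + 1)) (η t) := by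
    intro m
    induction m with
    | zero =>
      rw [zero_add, pow_one]
      exact hαm.trans ((le_iff α).2 hηt.1)
    | succ m ih =>
      rw [pow_ap]
      exact hαm.trans ((le_iff α).2 (hi.trans ih))
  have hξ1 : ∀ m : ℕ, (ξ ^ (m + 1)) t = (α ^ (m + 1)) (η t) := by
    intro m
    induction m with
    | zero =>
      rw [zero_add, pow_one, pow_one, hξap]
      have h1 := hαn 1
      rw [pow_one] at h1
      exact has.1 _ (h1.2.trans hmv)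
    | succ m ih =>
      rw [pow_ap ξ, ih, hξap, hηs.2 _ (hα1 m), ← pow_ap]
      exact has.1 _ ((hαn _).2.trans hmv)
  have hξ2 : ∀ x, k0 ≤ x → x ≤ k1 → ∀ m : ℕ, k0 ≤ (α ^ m) x ∧ (α ^ m) x ≤ k1 ∧
      (ξ ^ m) (δ x) = δ ((α ^ m) x) := by
    intro x hx0 hx1 m
    induction m with
    | zero =>
      rw [pow_zero, pow_zero, one_ap, one_ap]
      exact ⟨hx0, hx1, rfl⟩
    | succ m ih =>
      obtain ⟨ih0, ih1, ih2⟩ := ih
      have h1 := hαs.maps ih0 ih1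
      rw [pow_ap, pow_ap, ih2]
      refine ⟨h1.1, h1.2, ?_⟩
      have h2 : k1 ≤ δ ((α ^ m) x) := hmv.trans ((le_iff δ).2 ih0)
      rw [hξap, hηs.2 _ (hik.trans h2), hαs.2 _ h2, haap, inv_ap_self]
  obtain ⟨m, rfl⟩ : ∃ m, n = m + 1 := ⟨n - 1, by omega⟩
  have h3 := (hξ2 (η t) (hki.trans hηt.1) (hηt.2.trans hik) (m + 1)).2.2
  rw [mul_ap, mul_ap, mul_ap, hξ1, ← h3, inv_ap_self, inv_ap_self]

/-- Step 2 and 3: commutators of elements supported in a smaller interval are in `D`. -/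
theorem step3 {D : Subgroup G} (hD : RetA D) {i0 i1 x0 x1 : ℝ}
    (hi0 : 0 ≤ i0) (hi1 : i1 ≤ 1) (hx0 : i0 ≤ x0) (hx : x0 ≤ x1) (hx1 : x1 ≤ i1)
    (hw : ∀ η ∈ P, Supp η i0 i1 → ∃ w ∈ D, ∀ t, i0 ≤ t → t ≤ i1 → w t = η t)
    {ε : G} (hε : ε ∈ P) (hεs : Supp ε i0 i1) (hεm : x1 ≤ ε x0)
    {η₁ η₂ : G} (h1 : η₁ ∈ P) (h1s : Supp η₁ x0 x1) (h2 : η₂ ∈ P) (h2s : Supp η₂ x0 x1) :
    η₂⁻¹ * η₁⁻¹ * η₂ * η₁ ∈ D := by
  classical
  have key : ∀ η ∈ P, Supp η x0 x1 → ∃ w ∈ D, ∀ κ : G, Supp κ i0 i1 → w⁻¹ * κ * w = η⁻¹ * κ * η := by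
    intro η hη hηs
    have hηs' : Supp η i0 i1 := hηs.mono hx0 hx1
    obtain ⟨w, hwD, hw'⟩ := hw η hη hηs'
    refine ⟨w, hwD, fun κ hκ => ?_⟩
    have h3 := conj_congr (A := w⁻¹) (B := η⁻¹) hκ (fun t ht0 ht1 => by
      have h4 := hηs'.inv.maps ht0 ht1
      rw [inv_eq_iff, hw' _ h4.1 h4.2, ap_inv_self])
    rwa [inv_inv, inv_inv] at h3
  obtain ⟨w1, w1D, hw1⟩ := key η₁ h1 h1s
  obtain ⟨w2, w2D, hw2⟩ := key η₂ h2 h2s
  obtain ⟨w3, w3D, hw3⟩ := key (η₁ * η₂) (P.mul_mem h1 h2) (h1s.mul h2s)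
  have hεF : ε ∈ FR := ⟨hε, hεs.mono hi0 hi1⟩
  obtain ⟨n, hn, hA⟩ := hD ε hεF {w1, w2, w3} (by
    intro a ha
    simp only [Finset.mem_insert, Finset.mem_singleton] at ha
    rcases ha with rfl | rfl | rfl
    · exact w1D
    · exact w2D
    · exact w3D)
  have hA1 := D.mul_mem (D.inv_mem w1D) (hA w1 (by simp))
  have hA2 := D.mul_mem (D.inv_mem w2D) (hA w2 (by simp))
  have hA3 := D.mul_mem (D.inv_mem w3D) (hA w3 (by simp))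
  have hes : ∀ m : ℕ, Supp (ε ^ m) i0 i1 := by
    intro m
    induction m with
    | zero => rw [pow_zero]; exact Supp.one
    | succ m ih => rw [pow_succ]; exact ih.mul hεs
  set κ : G := (ε ^ n)⁻¹ with hκ
  have hκs : Supp κ i0 i1 := (hes n).inv
  rw [← mul_assoc, ← mul_assoc, hw1 κ hκs] at hA1
  rw [← mul_assoc, ← mul_assoc, hw2 κ hκs] at hA2
  rw [← mul_assoc, ← mul_assoc, hw3 κ hκs] at hA3
  -- displacement of the interval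
  have hdisp : ∀ m : ℕ, x1 ≤ (ε ^ (m + 1)) x0 := by
    intro m
    induction m with
    | zero => rw [zero_add, pow_one]; exact hεm
    | succ m ih =>
      rw [pow_ap]
      exact hεm.trans ((le_iff ε).2 (hx.trans ih))
  obtain ⟨m, rfl⟩ : ∃ m, n = m + 1 := ⟨n - 1, by omega⟩
  set θ : G := κ * η₁ * ε ^ (m + 1) with hθ
  have hθs : Supp θ (κ x0) (κ x1) := by
    have := h1s.conj κ
    rwa [hκ, inv_inv] at this
  have hθx : κ x1 ≤ x0 := by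
    rw [hκ, ← le_iff (ε ^ (m + 1)), ap_inv_self]
    exact hdisp m
  have hcomm : θ * η₂ = η₂ * θ := comm_of_disj hθs h2s hθx
  -- algebra
  have e1 : η₁⁻¹ * κ * η₁ * ε ^ (m + 1) = η₁⁻¹ * θ := by rw [hθ]; group
  have e3 : (η₁ * η₂)⁻¹ * κ * (η₁ * η₂) * ε ^ (m + 1) =
      η₂⁻¹ * η₁⁻¹ * θ * η₂ * (η₂⁻¹ * κ * η₂ * ε ^ (m + 1)) := by
    rw [hθ, hκ]; group
  rw [e1] at hA1
  rw [e3] at hA3
  have hA4 : η₂⁻¹ * η₁⁻¹ * θ * η₂ ∈ D := (D.mul_mem_cancel_right hA2).1 hA3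
  have hA5 := D.mul_mem hA4 (D.inv_mem hA1)
  have e5 : η₂⁻¹ * η₁⁻¹ * θ * η₂ * (η₁⁻¹ * θ)⁻¹ = η₂⁻¹ * η₁⁻¹ * η₂ * η₁ := by
    rw [mul_assoc (η₂⁻¹ * η₁⁻¹) θ η₂, hcomm]; group
  rwa [e5] at hA5

end Boom
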