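import Pool.Agent.X276.Boom.A

/-! Boomerang subgroups of the piecewise linear dyadic homeomorphisms of the unit interval are
normal: the version on the line. -/

namespace Boom

open Filter Topology Set Spr

theorem germ {g h : G} {c : ℝ} {l : Filter ℝ} (hl : pure c ≤ l) (hg : AffOn g l) (hh : AffOn h l)
    (tg : Tendsto g l l) (th : Tendsto h l l) (g0 : g c = c) (h0 : h c = c) :
    ∀ᶠ t in l, g (h t) = h (g t) := by
  obtain ⟨k, d, -, hk⟩ := hg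
  obtain ⟨k', d', -, hk'⟩ := hh
  have e1 : g c = 2 ^ k * c + d := eventually_pure.1 (hl hk)
  have e2 : h c = 2 ^ k' * c + d' := eventually_pure.1 (hl hk')
  have d1 : d = c - 2 ^ k * c := by linarith
  have d2 : d' = c - 2 ^ k' * c := by linarith
  filter_upwards [hk, hk', th.eventually hk, tg.eventually hk'] with t h1 h2 h3 h4
  rw [h3, h4, h1, h2, d1, d2]
  ring

theorem comm_right {g h : G} (hg : g ∈ FR) (hh : h ∈ FR) :
    ∃ u, 0 < u ∧ ∀ t, 0 ≤ t → t ≤ u → g (h t) = h (g t) := by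
  have g0 : g 0 = 0 := hg.2.1 0 le_rfl
  have h0 : h 0 = 0 := hh.2.1 0 le_rfl
  have tg := tend_ge g 0
  have th := tend_ge h 0
  rw [g0] at tg
  rw [h0] at th
  have h1 := germ (pure_le_nhdsWithin (mem_Ici.2 le_rfl)) (hg.1 0).1 (hh.1 0).1 tg th g0 h0
  rw [eventually_nhdsWithin_iff, Metric.eventually_nhds_iff] at h1
  obtain ⟨ε, hε, h2⟩ := h1
  refine ⟨ε / 2, by linarith, fun t ht0 ht1 => h2 ?_ ht0⟩
  rw [Real.dist_eq, sub_zero, abs_of_nonneg ht0]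
  linarith

theorem comm_left {g h : G} (hg : g ∈ FR) (hh : h ∈ FR) :
    ∃ u, u < 1 ∧ ∀ t, u ≤ t → t ≤ 1 → g (h t) = h (g t) := by
  have g0 : g 1 = 1 := hg.2.2 1 le_rfl
  have h0 : h 1 = 1 := hh.2.2 1 le_rfl
  have tg := tend_le g 1
  have th := tend_le h 1
  rw [g0] at tg
  rw [h0] at th
  have h1 := germ (pure_le_nhdsWithin (mem_Iic.2 le_rfl)) (hg.1 1).2.1 (hh.1 1).2.1 tg th g0 h0
  rw [eventually_nhdsWithin_iff, Metric.eventually_nhds_iff] at h1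
  obtain ⟨ε, hε, h2⟩ := h1
  refine ⟨1 - ε / 2, by linarith, fun t ht0 ht1 => h2 ?_ ht1⟩
  rw [Real.dist_eq, abs_sub_comm, abs_of_nonneg (by linarith)]
  linarith

theorem comm_supp {g h : G} (hg : g ∈ FR) (hh : h ∈ FR) :
    ∃ u v, Dy u ∧ Dy v ∧ 0 < u ∧ u < v ∧ v < 1 ∧ Supp (g * h * g⁻¹ * h⁻¹) u v := by
  obtain ⟨u, hu, hu1⟩ := comm_right hg hh
  obtain ⟨v, hv, hv1⟩ := comm_left hg hh
  have hF : g * h * g⁻¹ * h⁻¹ ∈ FR :=
    FR.mul_mem (FR.mul_mem (FR.mul_mem hg hh) (FR.inv_mem hg)) (FR.inv_mem hh)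
  have hu2 : 0 < h (g u) := by
    have : h (g 0) < h (g u) := (lt_iff h).2 ((lt_iff g).2 hu)
    rwa [hg.2.1 0 le_rfl, hh.2.1 0 le_rfl] at this
  have hv2 : h (g v) < 1 := by
    have : h (g v) < h (g 1) := (lt_iff h).2 ((lt_iff g).2 hv)
    rwa [hg.2.2 1 le_rfl, hh.2.2 1 le_rfl] at this
  obtain ⟨p, pD, p0, p1⟩ := dy_dense (lt_min hu2 (by norm_num : (0 : ℝ) < 1 / 2))
  obtain ⟨q, qD, q0, q1⟩ := dy_dense (max_lt hv2 (by norm_num : (1 / 2 : ℝ) < 1))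
  have p2 := p1.trans_le (min_le_left _ _)
  have p3 := p1.trans_le (min_le_right _ _)
  have q2 := (le_max_left _ _).trans_lt q0
  have q3 := (le_max_right _ _).trans_lt q0
  have key : ∀ s, g (h s) = h (g s) → (g * h * g⁻¹ * h⁻¹) (h (g s)) = h (g s) := by
    intro s hs
    rw [mul_ap, mul_ap, mul_ap, inv_ap_self, inv_ap_self, hs]
  refine ⟨p, q, pD, qD, p0, by linarith, q1, fun t ht => ?_, fun t ht => ?_⟩
  · rcases le_total t 0 with h0 | h0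
    · exact hF.2.1 t h0
    · obtain ⟨s, rfl⟩ : ∃ s, t = h (g s) := ⟨g⁻¹ (h⁻¹ t), by rw [ap_inv_self, ap_inv_self]⟩
      refine key s (hu1 s ?_ ?_)
      · rw [← le_iff g, ← le_iff h, hg.2.1 0 le_rfl, hh.2.1 0 le_rfl]; exact h0
      · rw [← le_iff g, ← le_iff h]; linarith
  · rcases le_total 1 t with h0 | h0
    · exact hF.2.2 t h0
    · obtain ⟨s, rfl⟩ : ∃ s, t = h (g s) := ⟨g⁻¹ (h⁻¹ t), by rw [ap_inv_self, ap_inv_self]⟩
      refine key s (hv1 s ?_ ?_)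
      · rw [← le_iff g, ← le_iff h]; linarith
      · rw [← le_iff g, ← le_iff h, hg.2.2 1 le_rfl, hh.2.2 1 le_rfl]; exact h0

/-- A commutator in `FR` is a commutator of elements with support inside the open interval. -/
theorem comm_trunc {g h : G} (hg : g ∈ FR) (hh : h ∈ FR) :
    ∃ s0 s1, 0 < s0 ∧ s0 < s1 ∧ s1 < 1 ∧ ∃ g' ∈ P, ∃ h' ∈ P, Supp g' s0 s1 ∧ Supp h' s0 s1 ∧
      g * h * g⁻¹ * h⁻¹ = g' * h' * g'⁻¹ * h'⁻¹ := by
  obtain ⟨u, v, uD, vD, u0, uv, v1, hs⟩ := comm_supp hg hh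
  have D0 : Dy (u / 2) := uD.div2
  have D1 : Dy ((v + 1) / 2) := (vD.add Dy.one).div2
  obtain ⟨f1, f1P, f10, f11⟩ := interp Dy.zero uD D0 uD u0 (by linarith : u / 2 < u)
  obtain ⟨f3, f3P, f30, f31⟩ := interp vD Dy.one vD D1 v1 (by linarith : v < (v + 1) / 2)
  obtain ⟨q1, a1, a2, a3⟩ := paste_exists f1 1 u (by rw [f11, one_ap])
  obtain ⟨ψ, b1, b2, b3⟩ := paste_exists q1 f3 v (by rw [a2 v uv.le, one_ap, f30])
  have ψP : ψ ∈ P := b3 (a3 f1P P.one_mem uD) f3P vD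
  have ψ0 : ψ 0 = u / 2 := by rw [b1 0 (by linarith), a1 0 u0.le, f10]
  have ψ1 : ψ 1 = (v + 1) / 2 := by rw [b2 1 v1.le, f31]
  have ψid : ∀ t, u ≤ t → t ≤ v → ψ t = (1 : G) t := fun t h1 h2 => by rw [b1 t h2, a2 t h1]
  have e1 := conj_congr hs ψid
  have e2 : g * h * g⁻¹ * h⁻¹ = ψ * g * ψ⁻¹ * (ψ * h * ψ⁻¹) * (ψ * g * ψ⁻¹)⁻¹ *
      (ψ * h * ψ⁻¹)⁻¹ := by
    have e3 : ψ * g * ψ⁻¹ * (ψ * h * ψ⁻¹) * (ψ * g * ψ⁻¹)⁻¹ * (ψ * h * ψ⁻¹)⁻¹ =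
      ψ * (g * h * g⁻¹ * h⁻¹) * ψ⁻¹ := by group
    rw [e3, e1]
    group
  have hg' := hg.2.conj ψ
  have hh' := hh.2.conj ψ
  rw [ψ0, ψ1] at hg' hh'
  exact ⟨u / 2, (v + 1) / 2, by linarith, by linarith, by linarith, _,
    P.mul_mem (P.mul_mem ψP hg.1) (P.inv_mem ψP), _, P.mul_mem (P.mul_mem ψP hh.1) (P.inv_mem ψP),
    hg', hh', e2⟩

/-- Some interval, all of whose commutators are in `D`. -/
theorem exists_X {D : Subgroup G} (hD : RetA D) (hDF : D ≤ FR) {δ : G} (hδ : δ ∈ D) {t : ℝ}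
    (ht : t < δ t) : ∃ x0 x1, Dy x0 ∧ Dy x1 ∧ 0 < x0 ∧ x0 < x1 ∧ x1 < 1 ∧
      ∀ η₁ ∈ P, ∀ η₂ ∈ P, Supp η₁ x0 x1 → Supp η₂ x0 x1 → η₂⁻¹ * η₁⁻¹ * η₂ * η₁ ∈ D := by
  have hδF := hDF hδ
  have t0 : 0 < t := by
    by_contra h
    have := hδF.2.1 t (not_lt.1 h)
    linarith
  have t1 : δ t < 1 := by
    by_contra h
    have h1 : 1 ≤ δ t := not_lt.1 h
    have h2 : 1 ≤ t := by
      rw [← le_iff δ, hδF.2.2 1 le_rfl]; exact h1
    have := hδF.2.2 t h2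
    linarith
  obtain ⟨k0, k0D, h1, h2⟩ := dy_dense ht
  obtain ⟨k1, k1D, h3, h4⟩ := dy_dense h2
  have hmv : k1 ≤ δ k0 := by
    have : δ t < δ k0 := (lt_iff δ).2 h1
    linarith
  obtain ⟨i0, i0D, a1, a2⟩ := dy_dense h3
  obtain ⟨i1, i1D, a3, a4⟩ := dy_dense a2
  obtain ⟨i2, i2D, a5, a6⟩ := dy_dense a4
  obtain ⟨α, αP, αs, αm⟩ := move k0D i0D i2D k1D a1 (by linarith) a2 a6
  obtain ⟨x0, x0D, b1, b2⟩ := dy_dense a3
  obtain ⟨x1, x1D, b3, b4⟩ := dy_dense b2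
  obtain ⟨x2, x2D, b5, b6⟩ := dy_dense b4
  obtain ⟨ε, εP, εs, εm⟩ := move i0D x0D x2D i1D b1 (by linarith) b2 b6
  refine ⟨x0, x1, x0D, x1D, by linarith, b3, by linarith, fun η₁ h1 η₂ h2 h1s h2s => ?_⟩
  exact step3 hD (by linarith) (by linarith) b1.le b3.le b4.le
    (fun η hη hηs => step1 hD hDF hδ (by linarith) (by linarith) a1.le a3.le a4.le hmv αP αs
      (by linarith) hη hηs) εP εs (by linarith) h1 h1s h2 h2s

theorem core {D : Subgroup G} (hDF : D ≤ FR) (hA : RetA D)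
    (hB : ∀ γ ∈ FR, ∀ b ∈ FR, b ∉ D → ∃ n : ℕ, 1 ≤ n ∧ (γ ^ n)⁻¹ * b * γ ^ n ∉ D) :
    ∀ g ∈ FR, ∀ h ∈ D, g * h * g⁻¹ ∈ D := by
  intro g hg h hh
  by_contra hcon
  have hhF := hDF hh
  have hc : g * h * g⁻¹ * h⁻¹ ∉ D := fun h1 => hcon ((D.mul_mem_cancel_right (D.inv_mem hh)).1 h1)
  have hcF : g * h * g⁻¹ * h⁻¹ ∈ FR :=
    FR.mul_mem (FR.mul_mem (FR.mul_mem hg hhF) (FR.inv_mem hg)) (FR.inv_mem hhF)
  -- a point moved to the right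
  obtain ⟨δ, hδ, t, ht⟩ : ∃ δ ∈ D, ∃ t, t < δ t := by
    by_contra hno
    push Not at hno
    have h1 : h = 1 := by
      apply ext'
      intro t
      rw [one_ap]
      apply le_antisymm (hno h hh t)
      have h2 := hno h⁻¹ (D.inv_mem hh) (h t)
      rwa [inv_ap_self] at h2
    apply hcon
    rw [h1, mul_one, mul_inv_cancel]
    exact D.one_mem
  obtain ⟨x0, x1, x0D, x1D, h0, h01, h1, hX⟩ := exists_X hA hDF hδ ht
  obtain ⟨s0, s1, c0, c01, c1, g', g'P, h', h'P, g's, h's, e⟩ := comm_trunc hg hhF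
  obtain ⟨y0, y0D, d0, d1⟩ := dy_dense (lt_min c0 h0)
  obtain ⟨y1, y1D, f0, f1⟩ := dy_dense (max_lt c1 h1)
  have d2 := d1.trans_le (min_le_left _ _)
  have d3 := d1.trans_le (min_le_right _ _)
  have f2 := (le_max_left _ _).trans_lt f0
  have f3 := (le_max_right _ _).trans_lt f0
  obtain ⟨γ, γP, γs, γ0, γ1⟩ := move2 Dy.zero x0D x1D y0D y1D Dy.one h0 h01 h1 d0 (by linarith) f1
  obtain ⟨n, hn, hnD⟩ := hB γ ⟨γP, γs⟩ _ hcF hc
  apply hnD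
  have hγ0 : ∀ m : ℕ, (γ ^ (m + 1)) x0 ≤ y0 := by
    intro m
    induction m with
    | zero => rw [zero_add, pow_one, γ0]
    | succ m ih =>
      rw [pow_ap, ← γ0, le_iff]
      exact ih.trans (by linarith)
  have hγ1 : ∀ m : ℕ, y1 ≤ (γ ^ (m + 1)) x1 := by
    intro m
    induction m with
    | zero => rw [zero_add, pow_one, γ1]
    | succ m ih =>
      rw [pow_ap]
      calc y1 = γ x1 := γ1.symm
        _ ≤ γ ((γ ^ (m + 1)) x1) := (le_iff γ).2 (le_trans (by linarith) ih)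
  obtain ⟨m, rfl⟩ : ∃ m, n = m + 1 := ⟨n - 1, by omega⟩
  have hsupp : ∀ f : G, Supp f s0 s1 → Supp ((γ ^ (m + 1))⁻¹ * f * γ ^ (m + 1)) x0 x1 := by
    intro f hf
    have h2 := (hf.mono d2.le f2.le).conj (γ ^ (m + 1))⁻¹
    rw [inv_inv] at h2
    refine h2.mono ?_ ?_
    · rw [← le_iff (γ ^ (m + 1)), ap_inv_self]; exact hγ0 m
    · rw [← le_iff (γ ^ (m + 1)), ap_inv_self]; exact hγ1 m
  have hP : ∀ f ∈ P, (γ ^ (m + 1))⁻¹ * f * γ ^ (m + 1) ∈ P := fun f hf =>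
    P.mul_mem (P.mul_mem (P.inv_mem (P.pow_mem γP _)) hf) (P.pow_mem γP _)
  have h3 := hX _ (P.inv_mem (hP h' h'P)) _ (P.inv_mem (hP g' g'P)) (hsupp h' h's).inv
    (hsupp g' g's).inv
  rw [e]
  convert h3 using 1
  group

end Boom
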