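import Pool.Agent.X276.Boom.B

/-! Thompson's group `F` on the unit interval and its extension to the line. -/

namespace Boom

open Filter Topology Set Spr

/-- A dyadic rational. -/
def Dyadic (x : ℝ) : Prop := ∃ (n : ℕ) (m : ℤ), x * 2 ^ n = m

/-- The orientation-preserving homeomorphism `f` of the unit interval is piecewise linear with
finitely many breakpoints, all of them dyadic rationals, and all slopes are integer powers of two:
outside a finite set `s` of dyadic rationals there are no breakpoints, that is, `f` is affine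
with slope a power of two on every interval whose interior does not meet `s`. -/
def IsThompson (f : Icc (0 : ℝ) 1 ≃o Icc (0 : ℝ) 1) : Prop :=
  ∃ s : Finset ℝ, (∀ x ∈ s, Dyadic x) ∧
    ∀ a b : Icc (0 : ℝ) 1, a < b → (∀ x ∈ s, ¬ ((a : ℝ) < x ∧ x < b)) →
      ∃ k : ℤ, ∀ t : Icc (0 : ℝ) 1, a ≤ t → t ≤ b →
        (f t : ℝ) = (f a : ℝ) + (2 : ℝ) ^ k * ((t : ℝ) - (a : ℝ))

open Classical in
/-- Extension by the identity. -/
noncomputable def extFun (f : Icc (0 : ℝ) 1 ≃o Icc (0 : ℝ) 1) (t : ℝ) : ℝ :=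
  if h : t ∈ Icc (0 : ℝ) 1 then (f ⟨t, h⟩ : ℝ) else t

theorem extFun_mem (f : Icc (0 : ℝ) 1 ≃o Icc (0 : ℝ) 1) {t : ℝ} (h : t ∈ Icc (0 : ℝ) 1) :
    extFun f t = (f ⟨t, h⟩ : ℝ) := dif_pos h

theorem extFun_not (f : Icc (0 : ℝ) 1 ≃o Icc (0 : ℝ) 1) {t : ℝ} (h : t ∉ Icc (0 : ℝ) 1) :
    extFun f t = t := dif_neg h

theorem extFun_mono (f : Icc (0 : ℝ) 1 ≃o Icc (0 : ℝ) 1) : StrictMono (extFun f) := by
  intro s t hst
  by_cases hs : s ∈ Icc (0 : ℝ) 1
  · by_cases ht : t ∈ Icc (0 : ℝ) 1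
    · rw [extFun_mem f hs, extFun_mem f ht]
      exact Subtype.coe_lt_coe.2 (f.strictMono (Subtype.mk_lt_mk.2 hst))
    · rw [extFun_mem f hs, extFun_not f ht]
      have h1 : 1 < t := by
        by_contra h
        exact ht ⟨hs.1.trans hst.le, not_lt.1 h⟩
      exact (f ⟨s, hs⟩).2.2.trans_lt h1
  · by_cases ht : t ∈ Icc (0 : ℝ) 1
    · rw [extFun_not f hs, extFun_mem f ht]
      have h1 : s < 0 := by
        by_contra h
        exact hs ⟨not_lt.1 h, hst.le.trans ht.2⟩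
      exact h1.trans_le (f ⟨t, ht⟩).2.1
    · rw [extFun_not f hs, extFun_not f ht]
      exact hst

theorem extFun_surj (f : Icc (0 : ℝ) 1 ≃o Icc (0 : ℝ) 1) : Function.Surjective (extFun f) := by
  intro v
  by_cases hv : v ∈ Icc (0 : ℝ) 1
  · refine ⟨(f.symm ⟨v, hv⟩ : ℝ), ?_⟩
    rw [extFun_mem f (f.symm ⟨v, hv⟩).2]
    simp
  · exact ⟨v, extFun_not f hv⟩

/-- Extension by the identity to an order automorphism of the line. -/
noncomputable def ext (f : Icc (0 : ℝ) 1 ≃o Icc (0 : ℝ) 1) : G :=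
  StrictMono.orderIsoOfSurjective (extFun f) (extFun_mono f) (extFun_surj f)

theorem ext_ap (f : Icc (0 : ℝ) 1 ≃o Icc (0 : ℝ) 1) (t : ℝ) : ext f t = extFun f t := rfl

theorem ext_mem (f : Icc (0 : ℝ) 1 ≃o Icc (0 : ℝ) 1) (t : Icc (0 : ℝ) 1) :
    ext f t = (f t : ℝ) := extFun_mem f t.2

theorem ext_not (f : Icc (0 : ℝ) 1 ≃o Icc (0 : ℝ) 1) {t : ℝ} (h : t ∉ Icc (0 : ℝ) 1) :
    ext f t = t := extFun_not f h

/-- Extension as a homomorphism. -/
noncomputable def extHom : (Icc (0 : ℝ) 1 ≃o Icc (0 : ℝ) 1) →* G where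
  toFun := ext
  map_one' := by
    apply ext'
    intro t
    by_cases ht : t ∈ Icc (0 : ℝ) 1
    · exact ext_mem 1 ⟨t, ht⟩
    · exact ext_not 1 ht
  map_mul' f g := by
    apply ext'
    intro t
    rw [mul_ap]
    by_cases ht : t ∈ Icc (0 : ℝ) 1
    · have h1 : ext g t = (g ⟨t, ht⟩ : ℝ) := ext_mem g ⟨t, ht⟩
      have h2 : ext (f * g) t = (f (g ⟨t, ht⟩) : ℝ) := ext_mem (f * g) ⟨t, ht⟩
      rw [h1, h2, ext_mem f]
    · rw [ext_not g ht, ext_not f ht, ext_not _ ht]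

theorem extHom_ap (f : Icc (0 : ℝ) 1 ≃o Icc (0 : ℝ) 1) : extHom f = ext f := rfl

theorem ext_inj : Function.Injective ext := by
  intro f g h
  apply OrderIso.ext
  funext t
  apply Subtype.ext
  rw [← ext_mem, ← ext_mem, h]

theorem ext_supp (f : Icc (0 : ℝ) 1 ≃o Icc (0 : ℝ) 1) : Supp (ext f) 0 1 := by
  have h0 : ext f 0 = 0 := by
    have hz : (0 : ℝ) ∈ Icc (0 : ℝ) 1 := ⟨le_rfl, zero_le_one⟩
    apply le_antisymm
    · have h1 : ext f 0 ≤ ext f (f.symm ⟨0, hz⟩ : ℝ) := (le_iff (ext f)).2 (f.symm ⟨0, hz⟩).2.1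
      rw [ext_mem f (f.symm ⟨0, hz⟩)] at h1
      simpa using h1
    · have := ext_mem f ⟨0, hz⟩
      rw [show ext f 0 = (f ⟨0, hz⟩ : ℝ) from this]
      exact (f ⟨0, hz⟩).2.1
  have h1 : ext f 1 = 1 := by
    have hz : (1 : ℝ) ∈ Icc (0 : ℝ) 1 := ⟨zero_le_one, le_rfl⟩
    apply le_antisymm
    · have := ext_mem f ⟨1, hz⟩
      rw [show ext f 1 = (f ⟨1, hz⟩ : ℝ) from this]
      exact (f ⟨1, hz⟩).2.2
    · have h1 : ext f (f.symm ⟨1, hz⟩ : ℝ) ≤ ext f 1 := (le_iff (ext f)).2 (f.symm ⟨1, hz⟩).2.2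
      rw [ext_mem f (f.symm ⟨1, hz⟩)] at h1
      simpa using h1
  refine ⟨fun t ht => ?_, fun t ht => ?_⟩
  · rcases ht.eq_or_lt with h | h
    · rw [h, h0]
    · exact ext_not f (fun hh => absurd hh.1 (not_le.2 h))
  · rcases ht.eq_or_lt with h | h
    · rw [← h, h1]
    · exact ext_not f (fun hh => absurd hh.2 (not_le.2 h))

/-- Restriction of an order automorphism supported in the unit interval. -/
theorem exists_res {q : G} (hq : Supp q 0 1) : ∃ f : Icc (0 : ℝ) 1 ≃o Icc (0 : ℝ) 1, ext f = q := by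
  have hm : ∀ t ∈ Icc (0 : ℝ) 1, q t ∈ Icc (0 : ℝ) 1 := fun t ht => hq.maps ht.1 ht.2
  have hm' : ∀ t ∈ Icc (0 : ℝ) 1, q⁻¹ t ∈ Icc (0 : ℝ) 1 := fun t ht => hq.inv.maps ht.1 ht.2
  let f : Icc (0 : ℝ) 1 ≃o Icc (0 : ℝ) 1 :=
    { toFun := fun t => ⟨q t, hm t t.2⟩
      invFun := fun t => ⟨q⁻¹ t, hm' t t.2⟩
      left_inv := fun t => Subtype.ext (inv_ap_self q t)
      right_inv := fun t => Subtype.ext (ap_inv_self q t)
      map_rel_iff' := by
        intro a b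
        show (q a : ℝ) ≤ q b ↔ (a : ℝ) ≤ b
        exact le_iff q }
  refine ⟨f, ?_⟩
  apply ext'
  intro t
  by_cases ht : t ∈ Icc (0 : ℝ) 1
  · exact ext_mem f ⟨t, ht⟩
  · rw [ext_not f ht]
    rcases lt_or_ge t 0 with h | h
    · rw [hq.1 t h.le]
    · rcases lt_or_ge 1 t with h' | h'
      · rw [hq.2 t h'.le]
      · exact absurd ⟨h, h'⟩ ht

end Boom
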