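import Pool.Agent.X276.Boom.C

/-! The extension of an element of Thompson's group is piecewise linear, and conversely. -/

namespace Boom

open Filter Topology Set Spr

section fwd

variable {F : ℝ → ℝ} {s : Finset ℝ}

theorem val_dy (hs : ∀ x ∈ s, Dy x) (h0 : F 0 = 0)
    (H : ∀ a b, 0 ≤ a → a < b → b ≤ 1 → (∀ x ∈ s, ¬ (a < x ∧ x < b)) →
      ∃ k : ℤ, ∀ t, a ≤ t → t ≤ b → F t = F a + 2 ^ k * (t - a)) :
    ∀ n : ℕ, ∀ x ∈ insert 0 (s.filter (fun x => 0 ≤ x ∧ x ≤ 1)),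
      ((insert 0 (s.filter (fun x => 0 ≤ x ∧ x ≤ 1))).filter (· < x)).card = n → Dy (F x) := by
  classical
  set s' : Finset ℝ := insert 0 (s.filter (fun x => 0 ≤ x ∧ x ≤ 1)) with hs'
  have hmem : ∀ x ∈ s', Dy x ∧ 0 ≤ x ∧ x ≤ 1 := by
    intro x hx
    rw [hs', Finset.mem_insert, Finset.mem_filter] at hx
    rcases hx with rfl | ⟨h1, h2, h3⟩
    · exact ⟨Dy.zero, le_rfl, zero_le_one⟩
    · exact ⟨hs x h1, h2, h3⟩
  intro n
  induction n using Nat.strong_induction_on with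
  | _ n ih =>
    intro x hx hn
    rcases (hmem x hx).2.1.eq_or_lt with hx0 | hx0
    · rw [← hx0, h0]; exact Dy.zero
    · have h0T : (0 : ℝ) ∈ s'.filter (· < x) :=
        Finset.mem_filter.2 ⟨Finset.mem_insert_self _ _, hx0⟩
      have hne : (s'.filter (· < x)).Nonempty := ⟨0, h0T⟩
      set y := (s'.filter (· < x)).max' hne with hy
      have hyT : y ∈ s'.filter (· < x) := Finset.max'_mem _ _
      obtain ⟨hys, hyx⟩ := Finset.mem_filter.1 hyT
      obtain ⟨k, hk⟩ := H y x (hmem y hys).2.1 hyx (hmem x hx).2.2 (by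
        rintro z hz ⟨hz1, hz2⟩
        have hzs : z ∈ s' := by
          rw [hs', Finset.mem_insert, Finset.mem_filter]
          exact Or.inr ⟨hz, (hmem y hys).2.1.trans hz1.le, hz2.le.trans (hmem x hx).2.2⟩
        have := Finset.le_max' (s'.filter (· < x)) z (Finset.mem_filter.2 ⟨hzs, hz2⟩)
        linarith)
      rw [hk x hyx.le le_rfl]
      have hlt : (s'.filter (· < y)).card < n := by
        rw [← hn]
        apply Finset.card_lt_card
        refine ⟨fun z hz => ?_, fun h => ?_⟩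
        · have hz := Finset.mem_filter.1 hz
          exact Finset.mem_filter.2 ⟨hz.1, hz.2.trans hyx⟩
        · exact lt_irrefl _ (Finset.mem_filter.1 (h hyT)).2
      exact (ih _ hlt y hys rfl).add ((Dy.zpow k).mul ((hmem x hx).1.sub (hmem y hys).1))

theorem piece (hs : ∀ x ∈ s, Dy x) (h0 : F 0 = 0)
    (H : ∀ a b, 0 ≤ a → a < b → b ≤ 1 → (∀ x ∈ s, ¬ (a < x ∧ x < b)) →
      ∃ k : ℤ, ∀ t, a ≤ t → t ≤ b → F t = F a + 2 ^ k * (t - a))
    {a b : ℝ} (ha : 0 ≤ a) (hab : a < b) (hb : b ≤ 1) (hn : ∀ x ∈ s, ¬ (a < x ∧ x < b)) :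
    ∃ (k : ℤ) (d : ℝ), Dy d ∧ ∀ u, a ≤ u → u ≤ b → F u = 2 ^ k * u + d := by
  classical
  have hval := val_dy hs h0 H
  set s' : Finset ℝ := insert 0 (s.filter (fun x => 0 ≤ x ∧ x ≤ 1)) with hs'
  have hmem : ∀ x ∈ s', Dy x ∧ 0 ≤ x ∧ x ≤ 1 := by
    intro x hx
    rw [hs', Finset.mem_insert, Finset.mem_filter] at hx
    rcases hx with rfl | ⟨h1, h2, h3⟩
    · exact ⟨Dy.zero, le_rfl, zero_le_one⟩
    · exact ⟨hs x h1, h2, h3⟩
  have hne : (s'.filter (· ≤ a)).Nonempty :=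
    ⟨0, Finset.mem_filter.2 ⟨Finset.mem_insert_self _ _, ha⟩⟩
  set y := (s'.filter (· ≤ a)).max' hne with hy
  obtain ⟨hys, hya⟩ := Finset.mem_filter.1 (Finset.max'_mem (s'.filter (· ≤ a)) hne)
  obtain ⟨k, hk⟩ := H y b (hmem y hys).2.1 (hya.trans_lt hab) hb (by
    rintro z hz ⟨hz1, hz2⟩
    rcases le_or_gt z a with h | h
    · have hzs : z ∈ s' := by
        rw [hs', Finset.mem_insert, Finset.mem_filter]
        exact Or.inr ⟨hz, (hmem y hys).2.1.trans hz1.le, hz2.le.trans hb⟩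
      have := Finset.le_max' (s'.filter (· ≤ a)) z (Finset.mem_filter.2 ⟨hzs, h⟩)
      linarith
    · exact hn z hz ⟨h, hz2⟩)
  refine ⟨k, F y - 2 ^ k * y, (hval _ y hys rfl).sub ((Dy.zpow k).mul (hmem y hys).1),
    fun u hu1 hu2 => ?_⟩
  rw [hk u (hya.trans hu1) hu2]
  ring

theorem fwd_PL (hs : ∀ x ∈ s, Dy x) (h0 : ∀ t ≤ 0, F t = t) (h1 : ∀ t, 1 ≤ t → F t = t)
    (H : ∀ a b, 0 ≤ a → a < b → b ≤ 1 → (∀ x ∈ s, ¬ (a < x ∧ x < b)) →
      ∃ k : ℤ, ∀ t, a ≤ t → t ≤ b → F t = F a + 2 ^ k * (t - a)) : PL F := by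
  classical
  have P := fun {a b : ℝ} (ha : 0 ≤ a) (hab : a < b) (hb : b ≤ 1) hn =>
    piece (a := a) (b := b) hs (h0 0 le_rfl) H ha hab hb hn
  have hid : ∀ l : Filter ℝ, (∀ᶠ u in l, F u = u) → AffOn F l := fun l h => ⟨0, 0, Dy.zero, by
    filter_upwards [h] with u hu
    rw [hu, zpow_zero, one_mul, add_zero]⟩
  intro t
  rcases lt_or_ge t 0 with ht0 | ht0
  · have h2 : ∀ᶠ u in 𝓝 t, F u = u := by
      filter_upwards [Iio_mem_nhds ht0] with u hu
      exact h0 u (le_of_lt hu)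
    exact ⟨hid _ (h2.filter_mono nhdsWithin_le_nhds), hid _ (h2.filter_mono nhdsWithin_le_nhds),
      fun _ => hid _ h2⟩
  rcases lt_or_ge 1 t with ht1 | ht1
  · have h2 : ∀ᶠ u in 𝓝 t, F u = u := by
      filter_upwards [Ioi_mem_nhds ht1] with u hu
      exact h1 u (le_of_lt hu)
    exact ⟨hid _ (h2.filter_mono nhdsWithin_le_nhds), hid _ (h2.filter_mono nhdsWithin_le_nhds),
      fun _ => hid _ h2⟩
  -- neighbours
  have hR : t < 1 → ∃ b, t < b ∧ b ≤ 1 ∧ ∀ x ∈ s, ¬ (t < x ∧ x < b) := by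
    intro ht
    have hne : (insert 1 (s.filter (t < ·))).Nonempty := ⟨1, Finset.mem_insert_self _ _⟩
    refine ⟨(insert 1 (s.filter (t < ·))).min' hne, ?_, Finset.min'_le _ _
      (Finset.mem_insert_self _ _), ?_⟩
    · have h2 := Finset.min'_mem (insert 1 (s.filter (t < ·))) hne
      rw [Finset.mem_insert, Finset.mem_filter] at h2
      rcases h2 with h2 | h2
      · rw [h2]; exact ht
      · exact h2.2
    · rintro x hx ⟨hx1, hx2⟩
      have := Finset.min'_le (insert 1 (s.filter (t < ·))) x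
        (Finset.mem_insert_of_mem (Finset.mem_filter.2 ⟨hx, hx1⟩))
      linarith
  have hL : 0 < t → ∃ a, a < t ∧ 0 ≤ a ∧ ∀ x ∈ s, ¬ (a < x ∧ x < t) := by
    intro ht
    have hne : (insert 0 (s.filter (· < t))).Nonempty := ⟨0, Finset.mem_insert_self _ _⟩
    refine ⟨(insert 0 (s.filter (· < t))).max' hne, ?_, Finset.le_max' _ _
      (Finset.mem_insert_self _ _), ?_⟩
    · have h2 := Finset.max'_mem (insert 0 (s.filter (· < t))) hne
      rw [Finset.mem_insert, Finset.mem_filter] at h2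
      rcases h2 with h2 | h2
      · rw [h2]; exact ht
      · exact h2.2
    · rintro x hx ⟨hx1, hx2⟩
      have := Finset.le_max' (insert 0 (s.filter (· < t))) x
        (Finset.mem_insert_of_mem (Finset.mem_filter.2 ⟨hx, hx2⟩))
      linarith
  refine ⟨?_, ?_, fun htD => ?_⟩
  · rcases ht1.eq_or_lt with h | h
    · subst h
      apply hid
      filter_upwards [self_mem_nhdsWithin] with u hu
      exact h1 u hu
    · obtain ⟨b, hb1, hb2, hb3⟩ := hR h
      obtain ⟨k, d, hd, hk⟩ := P ht0 hb1 hb2 hb3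
      refine ⟨k, d, hd, ?_⟩
      filter_upwards [self_mem_nhdsWithin, mem_nhdsWithin_of_mem_nhds (Iio_mem_nhds hb1)] with u hu hu'
      exact hk u hu (le_of_lt hu')
  · rcases ht0.eq_or_lt with h | h
    · subst h
      apply hid
      filter_upwards [self_mem_nhdsWithin] with u hu
      exact h0 u hu
    · obtain ⟨a, ha1, ha2, ha3⟩ := hL h
      obtain ⟨k, d, hd, hk⟩ := P ha2 ha1 ht1 ha3
      refine ⟨k, d, hd, ?_⟩
      filter_upwards [self_mem_nhdsWithin, mem_nhdsWithin_of_mem_nhds (Ioi_mem_nhds ha1)] with u hu hu'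
      exact hk u (le_of_lt hu') hu
  · have ht0' : 0 < t := ht0.lt_of_ne (fun h => htD (h ▸ Dy.zero))
    have ht1' : t < 1 := ht1.lt_of_ne (fun h => htD (h ▸ Dy.one))
    obtain ⟨b, hb1, hb2, hb3⟩ := hR ht1'
    obtain ⟨a, ha1, ha2, ha3⟩ := hL ht0'
    obtain ⟨k, d, hd, hk⟩ := P ha2 (ha1.trans hb1) hb2 (by
      rintro x hx ⟨hx1, hx2⟩
      rcases lt_trichotomy x t with h | h | h
      · exact ha3 x hx ⟨hx1, h⟩
      · exact htD (h ▸ hs x hx)
      · exact hb3 x hx ⟨h, hx2⟩)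
    refine ⟨k, d, hd, ?_⟩
    filter_upwards [Ioo_mem_nhds ha1 hb1] with u hu
    exact hk u hu.1.le hu.2.le

end fwd

section bwd

/-- Local affinity at a point. -/
def LA (F : ℝ → ℝ) (t : ℝ) : Prop := ∃ (k : ℤ) (d : ℝ), ∀ᶠ u in 𝓝 t, F u = 2 ^ k * u + d

theorem finite_breaks {F : ℝ → ℝ} (hF : PL F) :
    ∃ s : Finset ℝ, (∀ x ∈ s, Dy x) ∧ ∀ t ∈ Icc (0 : ℝ) 1, t ∉ s → LA F t := by
  classical
  refine IsCompact.induction_on (isCompact_Icc (a := (0 : ℝ)) (b := 1))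
    (p := fun S => ∃ s : Finset ℝ, (∀ x ∈ s, Dy x) ∧ ∀ t ∈ S, t ∉ s → LA F t) ?_ ?_ ?_ ?_
  · exact ⟨∅, by simp, by simp⟩
  · rintro S T hST ⟨s, h1, h2⟩
    exact ⟨s, h1, fun t ht => h2 t (hST ht)⟩
  · rintro S T ⟨s, h1, h2⟩ ⟨s', h1', h2'⟩
    refine ⟨s ∪ s', fun x hx => ?_, fun t ht hts => ?_⟩
    · rcases Finset.mem_union.1 hx with h | h
      · exact h1 x h
      · exact h1' x h
    · rw [Finset.mem_union, not_or] at hts
      rcases ht with h | h
      · exact h2 t h hts.1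
      · exact h2' t h hts.2
  · intro x _
    obtain ⟨k, d, -, hk⟩ := (hF x).1
    obtain ⟨k', d', -, hk'⟩ := (hF x).2.1
    rw [eventually_nhdsWithin_iff, Metric.eventually_nhds_iff] at hk hk'
    obtain ⟨ε, hε, h1⟩ := hk
    obtain ⟨ε', hε', h1'⟩ := hk'
    refine ⟨Ioo (x - min ε ε') (x + min ε ε'), mem_nhdsWithin_of_mem_nhds (Ioo_mem_nhds
      (by have := lt_min hε hε'; linarith) (by have := lt_min hε hε'; linarith)), ?_⟩
    have hright : ∀ t, x < t → t < x + min ε ε' → LA F t := by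
      intro t ht1 ht2
      refine ⟨k, d, ?_⟩
      filter_upwards [Ioo_mem_nhds ht1 ht2] with u hu
      have h3 := min_le_left ε ε'
      refine h1 ?_ hu.1.le
      rw [Real.dist_eq, abs_of_pos (by linarith [hu.1])]
      linarith [hu.2]
    have hleft : ∀ t, x - min ε ε' < t → t < x → LA F t := by
      intro t ht1 ht2
      refine ⟨k', d', ?_⟩
      filter_upwards [Ioo_mem_nhds ht1 ht2] with u hu
      have h3 := min_le_right ε ε'
      refine h1' ?_ hu.2.le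
      rw [Real.dist_eq, abs_sub_comm, abs_of_pos (by linarith [hu.2])]
      linarith [hu.1]
    by_cases hx : Dy x
    · refine ⟨{x}, by simpa using hx, fun t ht htx => ?_⟩
      rw [Finset.mem_singleton] at htx
      rcases lt_or_gt_of_ne htx with h | h
      · exact hleft t ht.1 h
      · exact hright t h ht.2
    · refine ⟨∅, by simp, fun t ht _ => ?_⟩
      rcases lt_trichotomy t x with h | h | h
      · exact hleft t ht.1 h
      · subst h
        obtain ⟨k2, d2, -, h2⟩ := (hF t).2.2 hx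
        exact ⟨k2, d2, h2⟩
      · exact hright t h ht.2

theorem affine_of_LA {F : ℝ → ℝ} (hc : Continuous F) {a b : ℝ} (hab : a < b)
    (h : ∀ t, a < t → t < b → LA F t) :
    ∃ k : ℤ, ∀ t, a ≤ t → t ≤ b → F t = F a + 2 ^ k * (t - a) := by
  have hder : ∀ t ∈ Ioo a b, ∃ (k : ℤ) (d : ℝ), F =ᶠ[𝓝 t] fun u => 2 ^ k * u + d :=
    fun t ht => h t ht.1 ht.2
  have hlin : ∀ (k : ℤ) (d t : ℝ), HasDerivAt (fun u => (2 : ℝ) ^ k * u + d) (2 ^ k) t := by
    intro k d t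
    simpa using ((hasDerivAt_id t).const_mul ((2 : ℝ) ^ k)).add_const d
  have hd1 : ∀ t ∈ Ioo a b, ∃ k : ℤ, deriv F =ᶠ[𝓝 t] fun _ => (2 : ℝ) ^ k := by
    intro t ht
    obtain ⟨k, d, hk⟩ := hder t ht
    refine ⟨k, hk.deriv.trans ?_⟩
    filter_upwards with u
    exact (hlin k d u).deriv
  have hdiff : DifferentiableOn ℝ F (Ioo a b) := by
    intro t ht
    obtain ⟨k, d, hk⟩ := hder t ht
    exact (((hlin k d t).congr_of_eventuallyEq hk).differentiableAt).differentiableWithinAt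
  have hdiff2 : DifferentiableOn ℝ (deriv F) (Ioo a b) := by
    intro t ht
    obtain ⟨k, hk⟩ := hd1 t ht
    exact (((hasDerivAt_const t ((2 : ℝ) ^ k)).congr_of_eventuallyEq hk).differentiableAt).differentiableWithinAt
  have hz2 : (Ioo a b).EqOn (deriv (deriv F)) 0 := by
    intro t ht
    obtain ⟨k, hk⟩ := hd1 t ht
    exact ((hasDerivAt_const t ((2 : ℝ) ^ k)).congr_of_eventuallyEq hk).deriv
  obtain ⟨c, hc1⟩ := isOpen_Ioo.exists_is_const_of_deriv_eq_zero isPreconnected_Ioo hdiff2 hz2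
  have hmid : (a + b) / 2 ∈ Ioo a b := ⟨by linarith, by linarith⟩
  obtain ⟨k, hk⟩ := hd1 _ hmid
  have hck : c = 2 ^ k := by rw [← hc1 _ hmid]; exact hk.self_of_nhds
  have hdiff3 : DifferentiableOn ℝ (fun u => F u - c * u) (Ioo a b) :=
    hdiff.sub ((differentiable_id.const_mul c).differentiableOn)
  have hz3 : (Ioo a b).EqOn (deriv (fun u => F u - c * u)) 0 := by
    intro t ht
    have h1 : HasDerivAt F (deriv F t) t := (hdiff.differentiableAt (isOpen_Ioo.mem_nhds ht)).hasDerivAt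
    have h2 : HasDerivAt (fun u => c * u) c t := by
      simpa using (hasDerivAt_id t).const_mul c
    have h3 : HasDerivAt (fun u => F u - c * u) (deriv F t - c) t := h1.sub h2
    rw [h3.deriv, hc1 t ht, sub_self]
    rfl
  obtain ⟨e, he⟩ := isOpen_Ioo.exists_is_const_of_deriv_eq_zero isPreconnected_Ioo hdiff3 hz3
  have hcl : Icc a b ⊆ {u | F u = c * u + e} := by
    rw [← closure_Ioo hab.ne]
    apply closure_minimal
    · intro u hu
      have := he u hu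
      show F u = c * u + e
      linarith
    · exact isClosed_eq hc (by fun_prop)
  refine ⟨k, fun t ht1 ht2 => ?_⟩
  have e1 : F t = c * t + e := hcl ⟨ht1, ht2⟩
  have e2 : F a = c * a + e := hcl ⟨le_rfl, hab.le⟩
  rw [e1, e2, ← hck]
  ring

end bwd

theorem thompson_iff (f : Icc (0 : ℝ) 1 ≃o Icc (0 : ℝ) 1) : IsThompson f ↔ ext f ∈ FR := by
  constructor
  · rintro ⟨s, hs, H⟩
    refine ⟨fwd_PL hs (ext_supp f).1 (ext_supp f).2 ?_, ext_supp f⟩
    intro a b ha hab hb hn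
    have haI : a ∈ Icc (0 : ℝ) 1 := ⟨ha, hab.le.trans hb⟩
    have hbI : b ∈ Icc (0 : ℝ) 1 := ⟨ha.trans hab.le, hb⟩
    obtain ⟨k, hk⟩ := H ⟨a, haI⟩ ⟨b, hbI⟩ (Subtype.mk_lt_mk.2 hab) hn
    refine ⟨k, fun t ht1 ht2 => ?_⟩
    have htI : t ∈ Icc (0 : ℝ) 1 := ⟨ha.trans ht1, ht2.trans hb⟩
    have h1 := hk ⟨t, htI⟩ (Subtype.mk_le_mk.2 ht1) (Subtype.mk_le_mk.2 ht2)
    have e1 : ext f t = (f ⟨t, htI⟩ : ℝ) := ext_mem f ⟨t, htI⟩
    have e2 : ext f a = (f ⟨a, haI⟩ : ℝ) := ext_mem f ⟨a, haI⟩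
    rw [e1, e2, h1]
  · intro hf
    obtain ⟨s, hs, hs1⟩ := finite_breaks (F := ext f) hf.1
    refine ⟨s, hs, fun a b hab hn => ?_⟩
    obtain ⟨k, hk⟩ := affine_of_LA (F := ext f) (OrderIso.continuous (ext f))
      (Subtype.coe_lt_coe.2 hab) (fun t ht1 ht2 => hs1 t
        ⟨a.2.1.trans ht1.le, ht2.le.trans b.2.2⟩ (fun hts => hn t hts ⟨ht1, ht2⟩))
    refine ⟨k, fun t ht1 ht2 => ?_⟩
    rw [← ext_mem, ← ext_mem]
    exact hk t (Subtype.coe_le_coe.2 ht1) (Subtype.coe_le_coe.2 ht2)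

end Boom
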